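import Pool.Agent.H295R2.T8

/-!
# Zero-free half-planes and the numbers `M(x/h)`, `h ≤ x ^ δ`, for isolated `x`

Let `M(y) = ∑_{n ≤ y} μ(n)` and `0 < δ ≤ 1`.  We look at the values of `M` at the points
`x, x/2, x/3, ..., x/h`, `h ≤ x ^ δ`, only.  The exponent of growth of their maximum is, as a limit
and unconditionally, the supremum `Θ` of the real parts of the zeros of zeta.  So there is a
zero-free half-plane as soon as for some `κ < 1` and some arbitrarily large `x`, chosen as we like,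
these few numbers are at most `x ^ κ`.
-/

set_option autoImplicit false

open Filter Topology Set

namespace Pool.Agent.Results.MP_5a4862_nt.MertensAtDivisions

/-- The Mertens function `M(y) = ∑_{n ≤ y} μ(n)` of a real variable. -/
noncomputable def mertens (y : ℝ) : ℝ :=
  ∑ n ∈ Finset.Icc 1 ⌊y⌋₊, (ArithmeticFunction.moebius n : ℝ)

/-- The maximum of `|M(x/h)|` over the integers `1 ≤ h ≤ x ^ δ`. -/
noncomputable def maxM (δ x : ℝ) : ℝ :=
  sSup {y : ℝ | ∃ h : ℕ, 1 ≤ h ∧ (h : ℝ) ≤ x ^ δ ∧ y = |mertens (x / h)|}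

/-- `Θ`: the supremum of the real parts of the zeros of the Riemann zeta function in the critical strip. -/
noncomputable def Theta : ℝ :=
  sSup (Complex.re '' {s : ℂ | riemannZeta s = 0 ∧ 0 < s.re ∧ s.re < 1})

lemma mertens_eq (y : ℝ) : mertens y = Pool.Agent.H295R2.Mx y := rfl

lemma theta_eq : Theta = Pool.Agent.H295R2.zetaSup := rfl

lemma theta_mem : 1 / 2 ≤ Theta ∧ Theta ≤ 1 :=
  ⟨Pool.Agent.H295R2.half_le_zetaSup, Pool.Agent.H295R2.zetaSup_le_one⟩

lemma finite_values (δ x : ℝ) :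
    {y : ℝ | ∃ h : ℕ, 1 ≤ h ∧ (h : ℝ) ≤ x ^ δ ∧ y = |mertens (x / h)|}.Finite := by
  have h1 : {y : ℝ | ∃ h : ℕ, 1 ≤ h ∧ (h : ℝ) ≤ x ^ δ ∧ y = |mertens (x / h)|} ⊆
      (fun h : ℕ => |mertens (x / h)|) '' (Finset.Icc 1 ⌊x ^ δ⌋₊ : Set ℕ) := by
    rintro y ⟨h, hh1, hh2, rfl⟩
    refine ⟨h, ?_, rfl⟩
    rw [Finset.mem_coe, Finset.mem_Icc]
    exact ⟨hh1, Nat.le_floor hh2⟩
  exact (Finset.finite_toSet _ |>.image _).subset h1

/-- **The numbers `M(x/h)`.**  Let `0 < δ ≤ 1`.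
(1) Unconditionally `log max_{h ≤ x ^ δ} |M(x/h)| / log x` tends to `Θ` as `x` tends to infinity.
(2) Unconditionally, for every `ε > 0` and every sufficiently large integer `n` there is an integer
`1 ≤ h ≤ n ^ δ` with `|M(n/h)| ≥ n ^ (Θ - ε)`.
(3) There is `σ₀ < 1` such that zeta has no zero with real part at least `σ₀` if and only if there
is `κ < 1` such that for arbitrarily large real `x` one has `|M(x/h)| ≤ x ^ κ` for all integers
`1 ≤ h ≤ x ^ δ`. -/
theorem result (δ : ℝ) (hδ : 0 < δ) (hδ1 : δ ≤ 1) :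
    Tendsto (fun x : ℝ => Real.log (maxM δ x) / Real.log x) atTop (𝓝 Theta) ∧
    (∀ ε : ℝ, 0 < ε → ∀ᶠ n : ℕ in atTop, ∃ h : ℕ, 1 ≤ h ∧ (h : ℝ) ≤ (n : ℝ) ^ δ ∧
      (n : ℝ) ^ (Theta - ε) ≤ |mertens ((n : ℝ) / h)|) ∧
    ((∃ σ₀ : ℝ, 1 / 2 < σ₀ ∧ σ₀ < 1 ∧ ∀ s : ℂ, σ₀ ≤ s.re → riemannZeta s ≠ 0) ↔
      ∃ κ : ℝ, κ < 1 ∧ ∃ᶠ x : ℝ in atTop, ∀ h : ℕ, 1 ≤ h → (h : ℝ) ≤ x ^ δ →
        |mertens (x / h)| ≤ x ^ κ) := by
  have hlim : Tendsto (fun x : ℝ => Real.log (maxM δ x) / Real.log x) atTop (𝓝 Theta) :=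
    Pool.Agent.H295R2.mertens_limit hδ hδ1
  refine ⟨hlim, fun ε hε => Pool.Agent.H295R2.mertens_local_lower hδ hδ1 hε, ?_⟩
  have hθ := theta_mem
  have hone : ∀ x : ℝ, 1 ≤ x → |mertens (x / ((1 : ℕ) : ℝ))| ≤ maxM δ x := by
    intro x hx
    refine le_csSup (finite_values δ x).bddAbove ⟨1, le_rfl, ?_, rfl⟩
    rw [Nat.cast_one]
    exact Real.one_le_rpow hx hδ.le
  constructor
  · rintro ⟨σ₀, h1, h2, hfree⟩
    have hΘ : Theta ≤ σ₀ := by
      refine csSup_le Pool.Agent.H295R2.zset_nonempty ?_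
      rintro y ⟨s, hs, rfl⟩
      by_contra hcon
      exact hfree s (not_le.mp hcon).le hs.1
    refine ⟨(σ₀ + 1) / 2, by linarith, Eventually.frequently ?_⟩
    have h3 := (tendsto_order.mp hlim).2 ((σ₀ + 1) / 2) (by linarith)
    filter_upwards [h3, eventually_gt_atTop (1 : ℝ)] with x hx hx1 h hh1 hh2
    have hlog : 0 < Real.log x := Real.log_pos hx1
    have hx0 : 0 < x := by linarith
    rw [div_lt_iff₀ hlog] at hx
    have h4 : |mertens (x / h)| ≤ maxM δ x :=
      le_csSup (finite_values δ x).bddAbove ⟨h, hh1, hh2, rfl⟩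
    refine h4.trans ?_
    have h5 : 0 ≤ maxM δ x := (abs_nonneg _).trans h4
    rcases h5.eq_or_lt with h0 | h0
    · rw [← h0]; positivity
    · rw [← Real.log_le_log_iff h0 (by positivity), Real.log_rpow hx0]
      exact hx.le
  · rintro ⟨κ, hκ, hfr⟩
    -- reduce to integers
    have hΘ : Theta ≤ κ := by
      by_contra hcon
      push Not at hcon
      set κ' : ℝ := max ((κ + Theta) / 2) (1 / 4) with hκ'
      have hκ1 : (κ + Theta) / 2 ≤ κ' := le_max_left _ _
      have hκ2 : 1 / 4 ≤ κ' := le_max_right _ _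
      have h1 := (tendsto_order.mp hlim).1 κ' (max_lt (by linarith) (by linarith))
      obtain ⟨x, hx, hx1, hx2⟩ := (hfr.and_eventually (h1.and (eventually_gt_atTop (1 : ℝ)))).exists
      have hlog : 0 < Real.log x := Real.log_pos hx2
      have hx0 : 0 < x := by linarith
      rw [lt_div_iff₀ hlog] at hx1
      have hne : {y : ℝ | ∃ h : ℕ, 1 ≤ h ∧ (h : ℝ) ≤ x ^ δ ∧ y = |mertens (x / h)|}.Nonempty :=
        ⟨_, 1, le_rfl, by rw [Nat.cast_one]; exact Real.one_le_rpow hx2.le hδ.le, rfl⟩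
      have h2 : maxM δ x ≤ x ^ κ := by
        refine csSup_le hne ?_
        rintro y ⟨h, hh1, hh2, rfl⟩
        exact hx h hh1 hh2
      have h3 : 0 ≤ maxM δ x := (abs_nonneg _).trans (hone x hx2.le)
      rcases h3.eq_or_lt with h0 | h0
      · rw [← h0, Real.log_zero] at hx1
        have := mul_pos (show 0 < κ' by linarith) hlog
        linarith
      · have h4 := Real.log_le_log h0 h2
        rw [Real.log_rpow hx0] at h4
        nlinarith
    refine ⟨(max κ (1 / 2) + 1) / 2, ?_, ?_, ?_⟩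
    · have := le_max_right κ (1 / 2)
      linarith
    · have : max κ (1 / 2) < 1 := max_lt hκ (by norm_num)
      linarith
    · intro s hs hz
      have hm : max κ (1 / 2) < 1 := max_lt hκ (by norm_num)
      have hs1 : s.re < 1 := by
        by_contra hcon
        exact riemannZeta_ne_zero_of_one_le_re (not_lt.mp hcon) hz
      have hs0 : 0 < s.re := by
        have := le_max_right κ (1 / 2)
        linarith
      have h1 : s.re ≤ Theta := le_csSup Pool.Agent.H295R2.zset_bdd ⟨s, ⟨hz, hs0, hs1⟩, rfl⟩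
      have := le_max_left κ (1 / 2)
      linarith

end Pool.Agent.Results.MP_5a4862_nt.MertensAtDivisions
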