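import Pool.Agent.R303.Cut

/-!
# Monotone smooth cutoffs in the prime number theorem, and zero-free half-planes

Consider the prime number theorem with a smooth monotone cutoff `W` (zero up to `1`, one from
`A > 1` on), `∑_{p ≤ x} log p W(x / p) = ∑_{n ≤ x} W(x / n) + E_W(x)`, and the statement `P(A, θ)`:
for some smooth monotone cutoff `W` of ratio `A` the error term `E_W(x)` is `O(x ^ θ)`.

Unconditionally every `θ > 1/2` has some `A` with `P(A, θ)`, and every `A > 1` has some `θ < 1` with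
`P(A, θ)`.  Some `θ < 1` is good for all `A > 1` if and only if zeta has a zero-free half-plane.
-/

set_option autoImplicit false

open Filter Topology MeasureTheory Set
open scoped ContDiff

namespace Pool.Agent.Results.MP_5a4862_nt.MonotoneCutoffs

/-- A smooth monotone cutoff of ratio `A`: `W` is smooth and monotone, vanishes on `(-∞, 1]` and
equals `1` on `[A, ∞)`. -/
def IsMonotoneCutoff (A : ℝ) (W : ℝ → ℝ) : Prop :=
  ContDiff ℝ ∞ W ∧ Monotone W ∧ (∀ y ≤ 1, W y = 0) ∧ ∀ y, A ≤ y → W y = 1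

/-- The error term of the prime number theorem with the cutoff `W`:
`∑_{p ≤ x} log p W(x / p) - ∑_{n ≤ x} W(x / n)`, the first sum being over primes. -/
noncomputable def primeError (W : ℝ → ℝ) (x : ℝ) : ℝ :=
  ∑ p ∈ (Finset.Icc 1 ⌊x⌋₊).filter Nat.Prime, Real.log p * W (x / p) -
    ∑ n ∈ Finset.Icc 1 ⌊x⌋₊, W (x / n)

/-- For some smooth monotone cutoff of ratio `A` the error term is `O(x ^ θ)`. -/
def Good (A θ : ℝ) : Prop :=
  ∃ W : ℝ → ℝ, IsMonotoneCutoff A W ∧ ∃ C : ℝ, ∀ x : ℝ, 1 ≤ x → |primeError W x| ≤ C * x ^ θ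

/-- **Monotone cutoffs and zero-free half-planes.**
(1) For every `θ > 1/2` there is `A > 1` with `Good A θ`; more precisely, for `1/2 < σ < θ < 1` the
sum `S` of `m(ρ) / Im ρ` over the zeros with `Re ρ ≥ σ`, `Im ρ > 0` is finite and `Good A θ` holds
as soon as `log A > π S`.
(2) For every `A > 1` there is `θ < 1` with `Good A θ`.
(3) If `Good A θ` then `log A > π / |Im ρ|` for each zero `ρ` with real part greater than `θ`.
(4) There is `θ < 1` with `Good A θ` for all `A > 1` if and only if zeta has a zero-free half-plane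
`Re s ≥ σ₀` with `1/2 < σ₀ < 1`.
(5) For `1/2 ≤ θ₀ < 1`, zeta has no zero with real part greater than `θ₀` if and only if
`Good A θ` for all `A > 1` and `θ₀ < θ < 1`. -/
theorem result :
    ((∀ θ : ℝ, 1 / 2 < θ → ∃ A : ℝ, 1 < A ∧ Good A θ) ∧
      ∀ σ θ A : ℝ, 1 / 2 < σ → σ < θ → θ < 1 → 0 < A →
        Summable (fun ρ : {ρ : ℂ // riemannZeta ρ = 0 ∧ σ ≤ ρ.re ∧ 0 < ρ.im} =>
          (analyticOrderNatAt riemannZeta (ρ : ℂ) : ℝ) / (ρ : ℂ).im) ∧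
        (Real.pi * ∑' ρ : {ρ : ℂ // riemannZeta ρ = 0 ∧ σ ≤ ρ.re ∧ 0 < ρ.im},
          (analyticOrderNatAt riemannZeta (ρ : ℂ) : ℝ) / (ρ : ℂ).im < Real.log A → Good A θ)) ∧
    (∀ A : ℝ, 1 < A → ∃ θ : ℝ, θ < 1 ∧ Good A θ) ∧
    (∀ A θ : ℝ, 1 < A → 1 / 2 < θ → θ < 1 → Good A θ →
      ∀ ρ : ℂ, riemannZeta ρ = 0 → θ < ρ.re → Real.pi < Real.log A * |ρ.im|) ∧
    ((∃ θ : ℝ, θ < 1 ∧ ∀ A : ℝ, 1 < A → Good A θ) ↔
      ∃ σ₀ : ℝ, 1 / 2 < σ₀ ∧ σ₀ < 1 ∧ ∀ s : ℂ, σ₀ ≤ s.re → riemannZeta s ≠ 0) ∧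
    (∀ θ₀ : ℝ, 1 / 2 ≤ θ₀ → θ₀ < 1 →
      ((∀ s : ℂ, θ₀ < s.re → riemannZeta s ≠ 0) ↔
        ∀ A θ : ℝ, 1 < A → θ₀ < θ → θ < 1 → Good A θ)) := by
  -- translations
  have hof : ∀ (A θ : ℝ) (W : ℝ → ℝ), 1 / 2 < θ → 1 < A → H353.CutW A W → Monotone W →
      H353.bdW H353.aL θ W → Good A θ := by
    intro A θ W h1 hA hW hm hb
    exact ⟨W, ⟨hW.1, hm, hW.2.1, hW.2.2⟩, (H353.bdP_iff θ h1 hA hW).2 hb⟩
  have hto : ∀ A θ : ℝ, 1 / 2 < θ → 1 < A → Good A θ →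
      ∃ W, H353.CutW A W ∧ Monotone W ∧ H353.bdW H353.aL θ W := by
    rintro A θ h1 hA ⟨W, ⟨a, b, c, d⟩, e⟩
    have hW : H353.CutW A W := ⟨a, c, d⟩
    exact ⟨W, hW, b, (H353.bdP_iff θ h1 hA hW).1 e⟩
  have hmono : ∀ A θ θ' : ℝ, θ ≤ θ' → Good A θ → Good A θ' := by
    rintro A θ θ' h ⟨W, a, C, hC⟩
    have hC0 : 0 ≤ C := by
      have := (abs_nonneg _).trans (hC 1 le_rfl)
      simpa using this
    refine ⟨W, a, C, fun x hx => (hC x hx).trans ?_⟩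
    exact mul_le_mul_of_nonneg_left (Real.rpow_le_rpow_of_exponent_le hx h) hC0
  have hmonoA : ∀ A A' θ : ℝ, A ≤ A' → Good A θ → Good A' θ := by
    rintro A A' θ h ⟨W, ⟨a, b, c, d⟩, e⟩
    exact ⟨W, ⟨a, b, c, fun y hy => d y (h.trans hy)⟩, e⟩
  -- the part with the sum over the zeros
  have hS : ∀ σ θ A : ℝ, 1 / 2 < σ → σ < θ → θ < 1 → 0 < A →
        Summable (fun ρ : {ρ : ℂ // riemannZeta ρ = 0 ∧ σ ≤ ρ.re ∧ 0 < ρ.im} =>
          (analyticOrderNatAt riemannZeta (ρ : ℂ) : ℝ) / (ρ : ℂ).im) ∧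
        (Real.pi * ∑' ρ : {ρ : ℂ // riemannZeta ρ = 0 ∧ σ ≤ ρ.re ∧ 0 < ρ.im},
          (analyticOrderNatAt riemannZeta (ρ : ℂ) : ℝ) / (ρ : ℂ).im < Real.log A → Good A θ) := by
    intro σ θ A h1 h2 h3 hA
    obtain ⟨s1, s2⟩ := Pool.Agent.R303.HT_zeta σ h1 (by linarith)
    refine ⟨s1, fun h => ?_⟩
    have h' : H353.HT σ < Real.log A := by rw [s2]; exact h
    have h1A : 1 < A := by
      have := H353.HT_nonneg σ
      by_contra hle
      have := Real.log_nonpos hA.le (not_lt.1 hle)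
      linarith
    obtain ⟨W, a, b, _, c⟩ := Pool.Agent.R303.W_mono_gen σ θ A h1 h2 h3 hA h'
    exact hof A θ W (by linarith) h1A a b c
  have hexA : ∀ θ : ℝ, 1 / 2 < θ → ∃ A : ℝ, 1 < A ∧ Good A θ := by
    intro θ h1
    set θ' : ℝ := min θ (3 / 4) with hθ'
    have h2 : 1 / 2 < θ' := lt_min h1 (by norm_num)
    have h3 : θ' < 1 := lt_of_le_of_lt (min_le_right _ _) (by norm_num)
    set σ : ℝ := (1 / 2 + θ') / 2 with hσ
    set S : ℝ := Real.pi * ∑' ρ : {ρ : ℂ // riemannZeta ρ = 0 ∧ σ ≤ ρ.re ∧ 0 < ρ.im},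
          (analyticOrderNatAt riemannZeta (ρ : ℂ) : ℝ) / (ρ : ℂ).im with hSdef
    have hS0 : 0 ≤ S := by
      refine mul_nonneg Real.pi_pos.le (tsum_nonneg fun ρ => ?_)
      exact div_nonneg (Nat.cast_nonneg _) ρ.2.2.2.le
    refine ⟨Real.exp (S + 1), Real.one_lt_exp_iff.2 (by linarith), hmono _ θ' θ (min_le_left _ _) ?_⟩
    refine (hS σ θ' (Real.exp (S + 1)) (by rw [hσ]; linarith) (by rw [hσ]; linarith) h3
      (Real.exp_pos _)).2 ?_
    rw [Real.log_exp]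
    linarith
  have hfree : ∀ θ₀ : ℝ, 1 / 2 ≤ θ₀ → θ₀ < 1 → (∀ s : ℂ, θ₀ < s.re → riemannZeta s ≠ 0) →
      ∀ A θ : ℝ, 1 < A → θ₀ < θ → θ < 1 → Good A θ := by
    intro θ₀ h0 h1 hz A θ hA h2 h3
    obtain ⟨W, a, b, _, c⟩ := H353.W_mono_of_free A ((θ₀ + θ) / 2) θ hA (by linarith) (by linarith) h3
      (fun s hs _ => hz s (by linarith))
    exact hof A θ W (by linarith) hA a b c
  have hback : ∀ θ : ℝ, 1 / 2 < θ → θ < 1 → (∀ A : ℝ, 1 < A → Good A θ) →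
      ∀ s : ℂ, θ < s.re → riemannZeta s ≠ 0 := by
    intro θ h1 h2 hG s hs
    refine H353.W_free θ (by linarith) h2 (fun A hA => ?_) s hs
    obtain ⟨W, a, b, c⟩ := hto A θ h1 hA (hG A hA)
    exact ⟨W, a, b, Or.inr c⟩
  refine ⟨⟨hexA, hS⟩, fun A hA => ?_, fun A θ hA h1 h2 hG ρ hz hre => ?_, ⟨?_, ?_⟩,
    fun θ₀ h0 h1 => ⟨hfree θ₀ h0 h1, fun h s hs => ?_⟩⟩
  · -- small ratio
    have t1 := H353.AA_tendsto.eventually (gt_mem_nhds hA)
    have t2 : Ioi (1 / 2 : ℝ) ∈ 𝓝[<] (1:ℝ) := mem_nhdsWithin_of_mem_nhds (Ioi_mem_nhds (by norm_num))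
    obtain ⟨θ, ⟨h3, h4⟩, h5⟩ := ((t1.and t2).and self_mem_nhdsWithin).exists
    have h4' : 1 / 2 < θ := h4
    have h5' : θ < 1 := h5
    refine ⟨θ, h5', hmonoA _ A θ h3.le ?_⟩
    obtain ⟨W, a, b, _, c⟩ := H353.W_mono θ h4' h5'
    have hA' : 1 < H353.AA θ := by
      unfold H353.AA
      rw [Real.one_lt_exp_iff]
      have := H353.HT_nonneg (H353.sg θ)
      linarith
    exact hof _ θ W h4' hA' a b c
  · obtain ⟨W, a, b, c⟩ := hto A θ h1 hA hG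
    exact H353.W_box A θ hA (by linarith) h2 a b (Or.inr c) ρ hz hre
  · rintro ⟨θ, h1, hG⟩
    set θ' : ℝ := max θ (3 / 4) with hθ'
    have h2 : θ' < 1 := max_lt h1 (by norm_num)
    have h3 : 3 / 4 ≤ θ' := le_max_right _ _
    have h4 := hback θ' (by linarith) h2 fun A hA => hmono A θ θ' (le_max_left _ _) (hG A hA)
    exact ⟨(θ' + 1) / 2, by linarith, by linarith, fun s hs => h4 s (by linarith)⟩
  · rintro ⟨σ₀, h1, h2, hz⟩
    exact ⟨(σ₀ + 1) / 2, by linarith, fun A hA =>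
      hfree σ₀ h1.le h2 (fun s hs => hz s hs.le) A _ hA (by linarith) (by linarith)⟩
  · by_cases h2 : s.re < 1
    · exact hback ((θ₀ + s.re) / 2) (by linarith) (by linarith)
        (fun A hA => h A _ hA (by linarith) (by linarith)) s (by linarith)
    · exact riemannZeta_ne_zero_of_one_le_re (not_lt.1 h2)

end Pool.Agent.Results.MP_5a4862_nt.MonotoneCutoffs
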