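import Pool.Agent.R303.Rob.Fin

/-!
# The number of integers with a large value of `n / φ(n)`

Landau's theorem says that `limsup n / (φ(n) log log n) = e^γ`, and by Nicolas there are always
infinitely many `n` with `n / φ(n) > e^γ log log n`.  Let `Φ(x)` be the number of such `n` up to `x`.
We determine the order of growth of `Φ` in terms of the least `Θ ≥ 1/2` such that zeta has no
zeros with real part greater than `Θ`: one has `log log Φ(x) / log log x → (1 + Θ) / 2`.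
In particular there is a zero-free half-plane `Re s > 1 - δ` if and only if
`Φ(x) ≤ exp ((log x) ^ κ)` for some `κ < 1` and arbitrarily large `x`.
-/

set_option autoImplicit false

open Filter Topology

namespace Pool.Agent.Results.MP_5a4862_nt.NicolasExceptionCount

/-- `Φ(x)`: the number of integers `3 ≤ n ≤ x` with `n / φ(n) > e^γ log log n`, where `φ` is Euler's
totient function. -/
noncomputable def nicolasCount (x : ℝ) : ℕ :=
  Set.ncard {n : ℕ | 3 ≤ n ∧ (n : ℝ) ≤ x ∧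
    Real.exp Real.eulerMascheroniConstant * Real.log (Real.log n) < n / (Nat.totient n : ℝ)}

theorem nicolasCount_eq {x : ℝ} (hx : 0 ≤ x) : nicolasCount x = Pool.Agent.R303.Rob.NC x := by
  classical
  unfold nicolasCount Pool.Agent.R303.Rob.NC
  rw [← Set.ncard_coe_finset]
  congr 1
  ext n
  simp only [Set.mem_setOf_eq, Finset.coe_filter, Finset.mem_Icc, Nat.le_floor_iff hx]
  unfold Pool.Agent.R303.Rob.NE
  tauto

/-- **The order of the number of exceptions.**
(1) Let `Θ` be the least number `≥ 1/2` such that zeta has no zeros with real part greater than `Θ`.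
Then `1/2 ≤ Θ ≤ 1` and `log log Φ(x) / log log x → (1 + Θ) / 2`.
(2) There is `σ₀ < 1` such that zeta has no zeros with real part `≥ σ₀` if and only if there is
`κ < 1` such that `Φ(x) ≤ exp ((log x) ^ κ)` for arbitrarily large `x`. -/
theorem result :
    (∃ Θ : ℝ, 1 / 2 ≤ Θ ∧ Θ ≤ 1 ∧
      IsLeast {θ : ℝ | 1 / 2 ≤ θ ∧ ∀ s : ℂ, θ < s.re → riemannZeta s ≠ 0} Θ ∧
      Tendsto (fun x : ℝ => Real.log (Real.log (nicolasCount x)) / Real.log (Real.log x)) atTop
        (𝓝 ((1 + Θ) / 2))) ∧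
    ((∃ σ₀ : ℝ, 1 / 2 < σ₀ ∧ σ₀ < 1 ∧ ∀ s : ℂ, σ₀ ≤ s.re → riemannZeta s ≠ 0) ↔
      ∃ κ : ℝ, κ < 1 ∧ ∃ᶠ x : ℝ in atTop, (nicolasCount x : ℝ) ≤ Real.exp (Real.log x ^ κ)) := by
  obtain ⟨Θ, hΘ0, hΘ1, hleast⟩ := Pool.Agent.R303.Rob.exists_least
  obtain ⟨hF, hsup⟩ := Pool.Agent.R303.Rob.least_info hleast
  have hup : ∀ κ : ℝ, (1 + Θ) / 2 < κ → ∀ᶠ x : ℝ in atTop,
      (nicolasCount x : ℝ) ≤ Real.exp (Real.log x ^ κ) := by
    intro κ hκ
    filter_upwards [Pool.Agent.R303.Rob.NC_upper hΘ0 hΘ1 hF hκ, eventually_ge_atTop 0] with x hx hx0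
    rw [nicolasCount_eq hx0]
    exact hx
  have hlow : ∀ κ : ℝ, κ < (1 + Θ) / 2 → ∀ᶠ x : ℝ in atTop,
      Real.exp (Real.log x ^ κ) ≤ (nicolasCount x : ℝ) := by
    intro κ hκ
    filter_upwards [Pool.Agent.R303.Rob.NC_lower hΘ0 hΘ1 hF hsup hκ, eventually_ge_atTop 0] with x hx hx0
    rw [nicolasCount_eq hx0]
    exact hx
  refine ⟨⟨Θ, hΘ0, hΘ1, hleast, Pool.Agent.R303.Rob.loglog_tendsto (F := fun x => (nicolasCount x : ℝ))
    (by linarith) hlow hup⟩, ?_⟩
  constructor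
  · rintro ⟨σ₀, h1, h2, h3⟩
    have h4 : Θ ≤ σ₀ := hleast.2 ⟨h1.le, fun s hs => h3 s hs.le⟩
    obtain ⟨κ, hκ1, hκ2⟩ := exists_between (show (1 + Θ) / 2 < 1 by linarith)
    exact ⟨κ, hκ2, (hup κ hκ1).frequently⟩
  · rintro ⟨κ, hκ, h⟩
    have h1 : Θ < 1 := by
      by_contra hcon
      push Not at hcon
      obtain ⟨κ', hκ1, hκ2⟩ := exists_between hκ
      have h4 := hlow κ' (by linarith)
      obtain ⟨x, hx1, hx2, hx3⟩ := (h.and_eventually (h4.and
        (Real.tendsto_log_atTop.eventually_gt_atTop 1))).exists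
      have h5 := hx2.trans hx1
      rw [Real.exp_le_exp] at h5
      have h6 : Real.log x ^ κ < Real.log x ^ κ' := Real.rpow_lt_rpow_of_exponent_lt hx3 hκ1
      linarith
    refine ⟨(1 + Θ) / 2, by linarith, by linarith, fun s hs => hleast.1.2 s (by linarith)⟩

end Pool.Agent.Results.MP_5a4862_nt.NicolasExceptionCount
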