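import Pool.Agent.W190.A17

/-!
# Zero-free half-planes and single short windows

Let `1/2 ≤ θ₀ < 1` and `4 θ₀ (1 - θ₀) (κ + 1) ≤ 1`.  Zeta has no zero with real part greater than
`θ₀` if and only if the Chebyshev function `ψ` is within `x ^ (θ₀ + ε)` in mean of a polynomial of
degree at most `(log x) ^ δ` on some arbitrarily large windows
`[x, x + c x / (log x) ^ κ]`, with no other condition on these windows.  If zeta has a zero with
real part greater than `θ₀` then this fails on all the windows with `x` large.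
-/

set_option autoImplicit false

open Filter Topology MeasureTheory Set

namespace Pool.Agent.Results.MP_5a4862_nt.ShortWindowsPolynomial

/-- **The Chebyshev function on single short windows.**  Let `c > 0`, `0 ≤ δ < 1`, `κ ≥ 0`,
`1/2 ≤ θ < 1` and `4 θ (1 - θ) (κ + 1) ≤ 1`.
(1) If zeta has a zero with real part greater than `θ` then, for all sufficiently large `x`,
`∫ |ψ(y) - P(y)| dy > x ^ (1 + θ)` over the window `[x, x + c x / (log x) ^ κ]`, for all real
polynomials `P` of degree at most `(log x) ^ δ`.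
(2) Zeta has no zero with real part greater than `θ` if and only if for every `ε > 0` there are
arbitrarily large `x` such that `∫ |ψ(y) - P(y)| dy ≤ x ^ (1 + θ + ε)` over the window
`[x, x + c x / (log x) ^ κ]` for some real polynomial `P` of degree at most `(log x) ^ δ`. -/
theorem result (c δ κ θ : ℝ) (hc : 0 < c) (hδ0 : 0 ≤ δ) (hδ : δ < 1) (hκ : 0 ≤ κ)
    (hθ : 1 / 2 ≤ θ) (hθ1 : θ < 1) (hcond : 4 * θ * (1 - θ) * (κ + 1) ≤ 1) :
    ((∃ s : ℂ, riemannZeta s = 0 ∧ θ < s.re) →
      ∀ᶠ x : ℝ in atTop, ∀ P : Polynomial ℝ, (P.natDegree : ℝ) ≤ Real.log x ^ δ →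
        x ^ (1 + θ) < ∫ y in x..(x + c * x / Real.log x ^ κ), |Chebyshev.psi y - P.eval y|) ∧
    ((∀ s : ℂ, θ < s.re → riemannZeta s ≠ 0) ↔ ∀ ε : ℝ, 0 < ε → ∃ᶠ x : ℝ in atTop,
      ∃ P : Polynomial ℝ, (P.natDegree : ℝ) ≤ Real.log x ^ δ ∧
        ∫ y in x..(x + c * x / Real.log x ^ κ), |Chebyshev.psi y - P.eval y| ≤
          x ^ (1 + θ + ε)) := by
  have h1 : ∀ θ : ℝ, 1 / 2 ≤ θ → 4 * θ * (1 - θ) * (κ + 1) ≤ 1 →
      (∃ s : ℂ, riemannZeta s = 0 ∧ θ < s.re) →
      ∀ᶠ x : ℝ in atTop, ∀ P : Polynomial ℝ, (P.natDegree : ℝ) ≤ Real.log x ^ δ →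
        x ^ (1 + θ) < ∫ y in x..(x + c * x / Real.log x ^ κ), |Chebyshev.psi y - P.eval y| := by
    intro θ hθ hcond hz
    have key := Pool.Agent.W190.mangoldt_window (κ := κ) (c := c) hκ hc hδ hθ hcond hz
    simp only [Pool.Agent.W190.SF_psi] at key
    exact key
  refine ⟨h1 θ hθ hcond, fun hfree ε hε => ?_, fun h => ?_⟩
  · set η : ℝ := min (ε / 2) (1 - θ) with hη
    have hη0 : 0 < η := lt_min (by linarith) (by linarith)
    have hηε : η ≤ ε / 2 := min_le_left _ _
    have hη1 : θ + η ≤ 1 := by have := min_le_right (ε / 2) (1 - θ); linarith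
    obtain ⟨C, hC0, hC⟩ := Pool.Agent.W190.psi_of_free θ hθ hfree (θ + η) (by linarith) hη1
    refine Eventually.frequently ?_
    have ht : ∀ᶠ x : ℝ in atTop, c * (C * (1 + c) ^ (θ + η)) ≤ x ^ (ε / 2) :=
      (tendsto_rpow_atTop (by positivity)).eventually_ge_atTop _
    filter_upwards [ht, eventually_ge_atTop (Real.exp 1)] with x hx hxe
    have hx1 : 1 ≤ x := by
      have := Real.add_one_le_exp (1 : ℝ)
      linarith
    have hx0 : 0 < x := by linarith
    have hlog : 1 ≤ Real.log x := by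
      rw [Real.le_log_iff_exp_le hx0]
      exact hxe
    have hpow : 1 ≤ Real.log x ^ κ := Real.one_le_rpow hlog hκ
    have hh : c * x / Real.log x ^ κ ≤ c * x := div_le_self (by positivity) hpow
    have hh0 : 0 < c * x / Real.log x ^ κ := by positivity
    refine ⟨Polynomial.X, ?_, ?_⟩
    · rw [Polynomial.natDegree_X, Nat.cast_one]
      exact Real.one_le_rpow hlog hδ0
    · have hle : x ≤ x + c * x / Real.log x ^ κ := by linarith
      have hb : ∀ y ∈ Set.uIoc x (x + c * x / Real.log x ^ κ),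
          ‖|Chebyshev.psi y - (Polynomial.X : Polynomial ℝ).eval y|‖ ≤
          C * ((1 + c) * x) ^ (θ + η) := by
        intro y hy
        rw [Set.uIoc_of_le hle] at hy
        rw [Polynomial.eval_X, Real.norm_eq_abs, abs_abs]
        refine (hC y (by linarith [hy.1])).trans ?_
        refine mul_le_mul_of_nonneg_left (Real.rpow_le_rpow (by linarith [hy.1]) ?_ (by linarith)) hC0.le
        have := hy.2
        linarith
      have h2 := intervalIntegral.norm_integral_le_of_norm_le_const hb
      have h3 : |x + c * x / Real.log x ^ κ - x| = c * x / Real.log x ^ κ := by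
        rw [show x + c * x / Real.log x ^ κ - x = c * x / Real.log x ^ κ by ring, abs_of_pos hh0]
      rw [h3, Real.norm_eq_abs] at h2
      refine (le_abs_self _).trans (h2.trans ?_)
      have hA : 0 ≤ C * ((1 + c) * x) ^ (θ + η) := by positivity
      refine (mul_le_mul_of_nonneg_left hh hA).trans ?_
      rw [Real.mul_rpow (by positivity) hx0.le]
      calc C * ((1 + c) ^ (θ + η) * x ^ (θ + η)) * (c * x)
          = (c * (C * (1 + c) ^ (θ + η))) * (x ^ (θ + η) * x ^ (1 : ℝ)) := by
            rw [Real.rpow_one]; ring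
        _ ≤ x ^ (ε / 2) * (x ^ (θ + η) * x ^ (1 : ℝ)) := by
            refine mul_le_mul_of_nonneg_right hx ?_
            positivity
        _ = x ^ (ε / 2 + (θ + η + 1)) := by
            rw [← Real.rpow_add hx0, ← Real.rpow_add hx0]
        _ ≤ x ^ (1 + θ + ε) := by
            refine Real.rpow_le_rpow_of_exponent_le hx1 ?_
            linarith
  · intro s hs hz
    have hs1 : s.re < 1 := by
      by_contra h2
      exact riemannZeta_ne_zero_of_one_le_re (not_lt.1 h2) hz
    set θ' : ℝ := (θ + s.re) / 2 with hθ'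
    have hlt : θ < θ' := by rw [hθ']; linarith
    have hlt1 : θ' < 1 := by rw [hθ']; linarith
    have hcond' : 4 * θ' * (1 - θ') * (κ + 1) ≤ 1 := by
      have h5 : 4 * θ' * (1 - θ') ≤ 4 * θ * (1 - θ) := by nlinarith
      have h6 : 4 * θ' * (1 - θ') * (κ + 1) ≤ 4 * θ * (1 - θ) * (κ + 1) :=
        mul_le_mul_of_nonneg_right h5 (by linarith)
      linarith
    have h2 := h1 θ' (by linarith) hcond' ⟨s, hz, by rw [hθ']; linarith⟩
    have h3 := h (θ' - θ) (by linarith)
    obtain ⟨x, ⟨P, hP1, hP2⟩, hx⟩ := (h3.and_eventually h2).exists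
    have h4 := hx P hP1
    rw [show 1 + θ + (θ' - θ) = 1 + θ' by ring] at hP2
    linarith

end Pool.Agent.Results.MP_5a4862_nt.ShortWindowsPolynomial
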